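import Pool.Agent.H41.CW.StmtD

/-!
# GLA, GSW: gluing of automorphisms and swaps
-/

set_option autoImplicit false

open Set Pool.Agent.TK Pool.Agent.H71.VK

namespace Pool.Agent.CW

variable {C : Type} {c0 : C}

/-- a permutation which preserves the values of points and pairs is an isomorphism -/
lemma isoH_of {n n' : ℕ} {M N : St (C × ℕ)} (hM : BV c0 n M) (hN : BV c0 n' N)
    (f : Equiv.Perm ℕ) (h1 : ∀ x, M.2 [x] = N.2 [f x])
    (h2 : ∀ x y, bn M x y = bn N (f x) (f y)) : IsoH f M N := by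
  obtain ⟨m1, m2, m3, m4, m5⟩ := hM
  obtain ⟨n1, n2, n3, n4, n5⟩ := hN
  refine ⟨fun u v => ?_, fun l => ?_⟩
  · rw [m1, n1]
    congr 1
    rw [ne_eq, ne_eq, f.injective.eq_iff]
  · match l with
    | [] => rw [List.map_nil, m2, n2]
    | [x] => exact h1 x
    | [x, y] =>
      change M.2 [x, y] = N.2 [f x, f y]
      exact Prod.ext ((m4 x y).1.trans (n4 _ _).1.symm) (h2 x y)
    | x :: y :: z :: l =>
      rw [m5 _ (by simp), n5 _ (by simp)]

lemma isoH_bn {M N : St (C × ℕ)} {f : Equiv.Perm ℕ} (h : IsoH f M N) (x y : ℕ) :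
    bn N (f x) (f y) = bn M x y := by
  have h1 := h.2 [x, y]
  unfold bn
  rw [h1]
  rfl

/-- maps of lists agree if they agree along the zip -/
lemma map_zip_eq {β : Type} (u u' : ℕ → β) : ∀ (a a' : List ℕ), a.length = a'.length →
    (∀ p ∈ a.zip a', u p.1 = u' p.2) → a.map u = a'.map u'
  | [], [], _, _ => rfl
  | [], _ :: _, h, _ => by simp at h
  | _ :: _, [], h, _ => by simp at h
  | x :: a, x' :: a', h, H => by
    rw [List.map_cons, List.map_cons]
    congr 1
    · exact H (x, x') (by simp)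
    · exact map_zip_eq u u' a a' (by simpa using h) fun p hp => H p (by
        rw [List.zip_cons_cons]
        exact List.mem_cons_of_mem _ hp)

lemma fih_pt {M N : St (C × ℕ)} {g : ℕ → ℕ} {a a' : List ℕ} {D D' : Set ℕ}
    (H : FIh g M a D N a' D') {x : ℕ} (hx : x ∈ D) : M.2 [x] = N.2 [g x] :=
  (H.2.2 [x] (by simpa using hx)).2.2 [(x, g x)] (by simp)

lemma fih_pr {M N : St (C × ℕ)} {g : ℕ → ℕ} {a a' : List ℕ} {D D' : Set ℕ}
    (H : FIh g M a D N a' D') {x y : ℕ} (hx : x ∈ D) (hy : y ∈ D) :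
    bn M x y = bn N (g x) (g y) := by
  have h1 := (H.2.2 [x, y] (by
    intro z hz
    simp only [List.mem_cons, List.not_mem_nil, or_false] at hz
    rcases hz with rfl | rfl
    · exact hx
    · exact hy)).2.2 [(x, g x), (y, g y)] (by simp)
  exact congrArg Prod.snd h1

lemma fih_tp {M N : St (C × ℕ)} {g : ℕ → ℕ} {a a' : List ℕ} {D D' : Set ℕ}
    (H : FIh g M a D N a' D') {x : ℕ} (hx : x ∈ D) : tp (bn M) a x = tp (bn N) a' (g x) := by
  unfold tp
  refine map_zip_eq _ _ a a' H.1 fun p hp => ?_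
  have h0 := H.2.2 [x] (by simpa using hx)
  have h1 := h0.2.2 [(x, g x), p] (by
    intro z hz
    simp only [List.mem_cons, List.not_mem_nil, or_false] at hz
    rcases hz with rfl | rfl
    · simp
    · exact List.mem_append_left _ hp)
  have h2 := h0.2.2 [p, (x, g x)] (by
    intro z hz
    simp only [List.mem_cons, List.not_mem_nil, or_false] at hz
    rcases hz with rfl | rfl
    · exact List.mem_append_left _ hp
    · simp)
  have e1 : bn M x p.1 = bn N (g x) p.2 := congrArg Prod.snd h1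
  have e2 : bn M p.1 x = bn N p.2 (g x) := congrArg Prod.snd h2
  exact Prod.ext e1 e2

lemma bn_eq_of_ee {c c' : ℕ → ℕ → ℕ} {x y x' y' : ℕ} (h : ee c x y = ee c' x' y') :
    c x y = c' x' y' ∧ c y x = c' y' x' := ⟨congrArg Prod.fst h, congrArg Prod.snd h⟩

theorem pf_GLA : T_GLA C c0 := by
  classical
  intro n M hM π hV g hg
  have hb : BijOn g (st (bn M) π) (st (bn M) π) := hg.2.1
  let e : st (bn M) π ≃ st (bn M) π := hb.equiv g
  let f : Equiv.Perm ℕ := Equiv.Perm.ofSubtype (p := fun x => x ∈ st (bn M) π) e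
  have f1 : ∀ a ∈ st (bn M) π, f a = g a := fun a ha => by
    have := Equiv.Perm.ofSubtype_apply_of_mem (p := fun x => x ∈ st (bn M) π) e ha
    exact this
  have f2 : ∀ x, x ∉ st (bn M) π → f x = x := fun x hx =>
    Equiv.Perm.ofSubtype_apply_of_not_mem _ hx
  refine ⟨f, ?_, f1, f2⟩
  have hgD : ∀ x ∈ st (bn M) π, f x ∈ st (bn M) π := fun x hx => by
    rw [f1 x hx]
    exact hb.mapsTo hx
  have htp : ∀ x ∈ st (bn M) π, tp (bn M) (zl π) x = tp (bn M) (zl π) (f x) := fun x hx => by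
    rw [f1 x hx]
    exact fih_tp hg hx
  refine isoH_of hM hM f (fun x => ?_) (fun x y => ?_)
  · by_cases hx : x ∈ st (bn M) π
    · rw [f1 x hx]
      exact fih_pt hg hx
    · rw [f2 x hx]
  · by_cases hx : x ∈ st (bn M) π
    · by_cases hy : y ∈ st (bn M) π
      · rw [f1 x hx, f1 y hy]
        exact fih_pr hg hx hy
      · rw [f2 y hy]
        exact (bn_eq_of_ee (ctl hV hx (hgD x hx) (htp x hx) hy)).1
    · by_cases hy : y ∈ st (bn M) π
      · rw [f2 x hx]
        exact (bn_eq_of_ee (ctl hV hy (hgD y hy) (htp y hy) hx)).2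
      · rw [f2 x hx, f2 y hy]

/-- two components of a symmetric table are disjoint -/
lemma comp_disj {c : ℕ → ℕ → ℕ} {π : Pr} {S : List ℕ} {F : Tab} {v v' : ℕ} (hF : Sy F)
    (hv : Vd c ((S, F, v, true) :: π)) (hv' : Vd c ((S, F, v', true) :: π))
    (hne : v' ∉ st c ((S, F, v, true) :: π)) :
    ∀ x ∈ st c ((S, F, v, true) :: π), x ∉ st c ((S, F, v', true) :: π) := by
  intro x hx hx'
  apply hne
  rw [st_true] at hx hx' ⊢
  have h1 := cl_symm hF (vd_cons.1 hv').2.2.1 (base_not_mem hv') hx'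
  exact Relation.ReflTransGen.trans hx h1

theorem pf_GSW : T_GSW C c0 := by
  classical
  intro n M hM π S F v v' hF hV hV' hne g hg
  set D := st (bn M) ((S, F, v, true) :: π) with hD
  set D' := st (bn M) ((S, F, v', true) :: π) with hD'
  have hb : BijOn g D D' := hg.2.1
  have hdis : ∀ x ∈ D, x ∉ D' := comp_disj hF hV hV' hne
  -- the inverse of `g`
  let g' : ℕ → ℕ := Function.invFunOn g D
  have g1 : ∀ y ∈ D', g' y ∈ D ∧ g (g' y) = y := fun y hy => by
    have h1 : ∃ a ∈ D, g a = y := hb.surjOn hy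
    exact ⟨Function.invFunOn_mem h1, Function.invFunOn_eq h1⟩
  have g2 : ∀ x ∈ D, g' (g x) = x := fun x hx => by
    have h1 := g1 (g x) (hb.mapsTo hx)
    exact hb.injOn h1.1 hx h1.2
  let F0 : ℕ → ℕ := fun x => if x ∈ D then g x else if x ∈ D' then g' x else x
  have a1 : ∀ x ∈ D, F0 x = g x := fun x hx => if_pos hx
  have a2 : ∀ x ∈ D', F0 x = g' x := fun x hx => by
    have h1 : x ∉ D := fun h => hdis x h hx
    change (if x ∈ D then g x else if x ∈ D' then g' x else x) = _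
    rw [if_neg h1, if_pos hx]
  have a3 : ∀ x, x ∉ D → x ∉ D' → F0 x = x := fun x h1 h2 => by
    change (if x ∈ D then g x else if x ∈ D' then g' x else x) = _
    rw [if_neg h1, if_neg h2]
  have a4 : ∀ x, F0 (F0 x) = x := by
    intro x
    by_cases h1 : x ∈ D
    · rw [a1 x h1, a2 _ (hb.mapsTo h1), g2 x h1]
    · by_cases h2 : x ∈ D'
      · rw [a2 x h2, a1 _ (g1 x h2).1, (g1 x h2).2]
      · rw [a3 x h1 h2, a3 x h1 h2]
  let f : Equiv.Perm ℕ := ⟨F0, F0, a4, a4⟩
  have f1 : ∀ x ∈ D, f x = g x := a1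
  have f2 : ∀ x ∈ D', f x = g' x := a2
  have f3 : ∀ x, x ∉ D → x ∉ D' → f x = x := a3
  have f4 : ∀ x, f (f x) = x := a4
  have f5 : ∀ x ∈ D, f x ∈ D' := fun x hx => by
    rw [f1 x hx]
    exact hb.mapsTo hx
  have f6 : ∀ x ∈ D', f x ∈ D := fun x hx => by
    rw [f2 x hx]
    exact (g1 x hx).1
  have ht1 : ∀ x ∈ D, tp (bn M) (S ++ zl π) x = tp (bn M) (S ++ zl π) (f x) := fun x hx => by
    rw [f1 x hx]
    exact fih_tp hg hx
  have ht2 : ∀ x ∈ D', tp (bn M) (S ++ zl π) x = tp (bn M) (S ++ zl π) (f x) := fun x hx => by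
    have h1 := ht1 (f x) (f6 x hx)
    rw [f4] at h1
    exact h1.symm
  have hP : ∀ x, x ∈ D ∨ x ∈ D' → x ∈ st (bn M) π ∧ x ∉ S ++ zl π := by
    rintro x (hx | hx)
    · exact st_sub hV x hx
    · exact st_sub hV' x hx
  -- no arcs leave `D` or `D'`
  have o1 : ∀ x ∈ D, ∀ y ∈ st (bn M) π, y ∉ S ++ zl π → y ∉ D →
      ee (bn M) x y = lk F (tp (bn M) (S ++ zl π) x) (tp (bn M) (S ++ zl π) y) :=
    fun x hx y hy hyL hyD => cl_out hx hy hyL hyD
  have o2 : ∀ x ∈ D', ∀ y ∈ st (bn M) π, y ∉ S ++ zl π → y ∉ D' →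
      ee (bn M) x y = lk F (tp (bn M) (S ++ zl π) x) (tp (bn M) (S ++ zl π) y) :=
    fun x hx y hy hyL hyD => cl_out hx hy hyL hyD
  -- values to points outside
  have out : ∀ x, x ∈ D ∨ x ∈ D' → ∀ y, y ∉ D → y ∉ D' → ee (bn M) x y = ee (bn M) (f x) y := by
    intro x hx y hy hy'
    have hfx : f x ∈ D ∨ f x ∈ D' := by
      rcases hx with hx | hx
      · exact Or.inr (f5 x hx)
      · exact Or.inl (f6 x hx)
    have htx : tp (bn M) (S ++ zl π) x = tp (bn M) (S ++ zl π) (f x) := by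
      rcases hx with hx | hx
      · exact ht1 x hx
      · exact ht2 x hx
    by_cases hyP : y ∈ st (bn M) π
    · by_cases hyL : y ∈ S ++ zl π
      · exact tp_eq_iff.1 htx y hyL
      · have hlk : ∀ w, w ∈ D ∨ w ∈ D' → ee (bn M) w y =
            lk F (tp (bn M) (S ++ zl π) w) (tp (bn M) (S ++ zl π) y) := by
          rintro w (hw | hw)
          · exact o1 w hw y hyP hyL hy
          · exact o2 w hw y hyP hyL hy'
        rw [hlk x hx, hlk _ hfx, htx]
    · exact ctl (vd_cons.1 hV).1 (hP x hx).1 (hP _ hfx).1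
        (tp_mono (List.subset_append_right _ _) htx) hyP
  have hpr : ∀ x y, ee (bn M) x y = ee (bn M) (f x) (f y) := by
    intro x y
    by_cases hx : x ∈ D
    · by_cases hy : y ∈ D
      · rw [f1 x hx, f1 y hy]
        exact Prod.ext (fih_pr hg hx hy) (fih_pr hg hy hx)
      · by_cases hy' : y ∈ D'
        · rw [o1 x hx y (hP y (Or.inr hy')).1 (hP y (Or.inr hy')).2 hy,
            o2 (f x) (f5 x hx) (f y) (hP _ (Or.inl (f6 y hy'))).1 (hP _ (Or.inl (f6 y hy'))).2
              (hdis _ (f6 y hy')), ht1 x hx, ht2 y hy']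
        · rw [f3 y hy hy']
          exact out x (Or.inl hx) y hy hy'
    · by_cases hx' : x ∈ D'
      · by_cases hy : y ∈ D
        · rw [o2 x hx' y (hP y (Or.inl hy)).1 (hP y (Or.inl hy)).2 (hdis y hy),
            o1 (f x) (f6 x hx') (f y) (hP _ (Or.inr (f5 y hy))).1 (hP _ (Or.inr (f5 y hy))).2
              (fun h => hdis _ h (f5 y hy)), ht2 x hx', ht1 y hy]
        · by_cases hy' : y ∈ D'
          · have e1 : ee (bn M) (f x) (f y) = ee (bn M) (g (f x)) (g (f y)) :=
              Prod.ext (fih_pr hg (f6 x hx') (f6 y hy')) (fih_pr hg (f6 y hy') (f6 x hx'))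
            rw [← f1 _ (f6 x hx'), ← f1 _ (f6 y hy'), f4, f4] at e1
            exact e1.symm
          · rw [f3 y hy hy']
            exact out x (Or.inr hx') y hy hy'
      · rw [f3 x hx hx']
        by_cases hy : y ∈ D ∨ y ∈ D'
        · have h1 := out y hy x hx hx'
          rwa [ee_eq_iff] at h1
        · push Not at hy
          rw [f3 y hy.1 hy.2]
  refine ⟨f, ?_, f4, f1, ?_, f3⟩
  · refine isoH_of hM hM f (fun x => ?_) (fun x y => (bn_eq_of_ee (hpr x y)).1)
    by_cases hx : x ∈ D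
    · rw [f1 x hx]
      exact fih_pt hg hx
    · by_cases hx' : x ∈ D'
      · have h1 := fih_pt hg (f6 x hx')
        rw [← f1 _ (f6 x hx'), f4] at h1
        exact h1.symm
      · rw [f3 x hx hx']
  · apply Subset.antisymm
    · rintro _ ⟨x, hx, rfl⟩
      exact f5 x hx
    · intro y hy
      exact ⟨f y, f6 y hy, f4 y⟩

end Pool.Agent.CW
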