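import Pool.Agent.H41.CW.Gng
import Pool.Agent.H41.CW.Syg

/-!
# GRP: a member with a group
-/

set_option autoImplicit false

open Set Pool.Agent.TK Pool.Agent.H71.VK

namespace Pool.Agent.CW

theorem pf_GRP {C : Type} {c0 : C} [MeasurableSpace C] [StandardBorelSpace C] : T_GRP C c0 :=
  grp_of pf_GNG pf_SYG

end Pool.Agent.CW
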