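import Pool.Agent.H41.CW.Glu
import Pool.Agent.H41.ST.Loc

/-!
# RTG, EMA, EMS: transport and imitation of automorphisms
-/

set_option autoImplicit false

open Set Pool.Agent.TK Pool.Agent.H71.VK

namespace Pool.Agent.CW

open Pool.Agent.H41.ST (RelN FlatN)
open Pool.Agent.H94.VK (isoH_fih isoH_inv map_map_inv)

variable {C : Type} {c0 : C}

lemma ng_le (O : Set (Tr C)) (M : St (C × ℕ)) : NG O M ≤ AutG M := by
  unfold NG
  rw [Subgroup.closure_le]
  rintro f (hf | hf)
  · exact hf.1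
  · exact hf.1

/-- an isomorphism of whole structures is an isomorphism of triples -/
lemma isoH_fih2 {D : Type} {M N : St D} {f : Equiv.Perm ℕ} (H : IsoH f M N) (s : List ℕ)
    (P : Set ℕ) : FIh f M s P N (s.map f) (f '' P) := by
  refine ⟨(List.length_map _).symm, ⟨fun z hz => mem_image_of_mem f hz, f.injective.injOn,
    fun z hz => hz⟩, fun x _ => ?_⟩
  have hall : ∀ z ∈ s.zip (s.map f) ++ x.map (fun z => (z, f z)), z.2 = f z.1 := by
    intro z hz
    rcases List.mem_append.1 hz with h | h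
    · rw [← Pool.Agent.H94.VK.zip_map_eq] at h
      obtain ⟨w, -, rfl⟩ := List.mem_map.1 h
      rfl
    · obtain ⟨w, -, rfl⟩ := List.mem_map.1 h
      rfl
  refine ⟨?_, ?_, ?_⟩
  · intro z hz w hw
    rw [hall z hz, hall w hw, f.injective.eq_iff]
  · intro z hz w hw
    rw [hall z hz, hall w hw]
    exact H.1 z.1 w.1
  · intro q hq
    rw [H.2 (q.map Prod.fst), List.map_map]
    exact congrArg N.2 (List.map_congr_left fun z hz => (hall z (hq z hz)).symm)

/-- membership of the type in `O` is transported -/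
lemma inO_iso {O : Set (Tr C)} {M N : St (C × ℕ)} {f : Equiv.Perm ℕ} (H : IsoH f M N)
    {z : List ℕ} {P : Set ℕ} (h : InO O M z P) : InO O N (z.map f) (f '' P) := by
  obtain ⟨t, ht, h1⟩ := h
  exact ⟨t, ht, (FI.symm ⟨f, isoH_fih2 H z P⟩).trans h1⟩

lemma isA_conj {O : Set (Tr C)} {M N : St (C × ℕ)} {h f : Equiv.Perm ℕ}
    (hh : IsoH h M N) (hf : IsA O M f) : IsA O N (h * f * h⁻¹) := by
  obtain ⟨h1, π, h2, h3, h4⟩ := hf
  have hb : ∀ x y, bn N (h x) (h y) = bn M x y := isoH_bn hh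
  refine ⟨RTRaux.isoH_conj hh h1, mp h π, (vd_iso h hb π).2 h2, ?_, ?_⟩
  · rw [zl_mp, st_iso h hb]
    exact inO_iso hh h3
  · intro x hx
    rw [st_iso h hb] at hx
    have k1 : h⁻¹ x ∉ st (bn M) π := fun hk => hx ⟨h⁻¹ x, hk, by simp⟩
    have := h4 _ k1
    rw [Equiv.Perm.mul_apply, Equiv.Perm.mul_apply, this]
    exact h.apply_symm_apply x

lemma isS_conj {O : Set (Tr C)} {M N : St (C × ℕ)} {h f : Equiv.Perm ℕ}
    (hh : IsoH h M N) (hf : IsS O M f) : IsS O N (h * f * h⁻¹) := by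
  obtain ⟨h1, h2, π, S, F, v, v', hF, hV, hV', hne, hO, him, hfix⟩ := hf
  have hb : ∀ x y, bn N (h x) (h y) = bn M x y := isoH_bn hh
  have e1 : st (bn N) ((S.map h, F, h v, true) :: mp h π) =
      h '' st (bn M) ((S, F, v, true) :: π) := st_iso h hb ((S, F, v, true) :: π)
  have e2 : st (bn N) ((S.map h, F, h v', true) :: mp h π) =
      h '' st (bn M) ((S, F, v', true) :: π) := st_iso h hb ((S, F, v', true) :: π)
  refine ⟨RTRaux.isoH_conj hh h1, fun x => ?_, mp h π, S.map h, F, h v, h v', hF,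
    (vd_iso h hb ((S, F, v, true) :: π)).2 hV, (vd_iso h hb ((S, F, v', true) :: π)).2 hV',
    ?_, ?_, ?_, ?_⟩
  · simp [h2]
  · rw [e1]
    rintro ⟨w, hw, hwv⟩
    exact hne (h.injective hwv ▸ hw)
  · rw [e1, zl_mp, ← List.map_append]
    exact inO_iso hh hO
  · rw [e1, e2, ← him]
    ext x
    simp only [Set.mem_image, Equiv.Perm.mul_apply]
    constructor
    · rintro ⟨_, ⟨w, hw, rfl⟩, rfl⟩
      exact ⟨f w, ⟨w, hw, rfl⟩, by simp⟩
    · rintro ⟨_, ⟨w, hw, rfl⟩, rfl⟩
      exact ⟨h w, ⟨w, hw, rfl⟩, by simp⟩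
  · intro x hx hx'
    rw [e1] at hx
    rw [e2] at hx'
    have k1 := hfix (h⁻¹ x) (fun hk => hx ⟨h⁻¹ x, hk, by simp⟩)
      (fun hk => hx' ⟨h⁻¹ x, hk, by simp⟩)
    rw [Equiv.Perm.mul_apply, Equiv.Perm.mul_apply, k1]
    exact h.apply_symm_apply x

theorem pf_RTG : T_RTG C := by
  intro O M N h hh l m hR
  obtain ⟨n, hn, rfl⟩ := hR
  have key : NG O M ≤ (NG O N).comap (MulAut.conj h).toMonoidHom := by
    rw [NG, Subgroup.closure_le]
    rintro f (hf | hf)
    · exact Subgroup.subset_closure (Or.inl (isA_conj hh hf))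
    · exact Subgroup.subset_closure (Or.inr (isS_conj hh hf))
  refine ⟨h * n * h⁻¹, key hn, ?_⟩
  rw [List.map_map, List.map_map]
  apply List.map_congr_left
  intro a _
  simp [Equiv.Perm.mul_apply]

theorem pf_EMA : T_EMA C c0 := by
  intro n O M hM π hV hO k hk Z hZ hkZ v hv
  have hb : ∀ x y, bn M (k x) (k y) = bn M x y := isoH_bn hk
  have hfix : ∀ a ∈ dl π, k a = a := fun a ha => hkZ a (hZ ha)
  have himg : k '' st (bn M) π = st (bn M) π := st_fix k hb hfix
  have hFI : FIh k M (zl π) (st (bn M) π) M (zl π) (st (bn M) π) :=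
    isoH_fih hk (fun z hz => hfix z (zl_sub_dl π hz)) himg
  obtain ⟨f, f1, f2, f3⟩ := pf_GLA (c0 := c0) n M hM π hV k hFI
  refine ⟨f, Subgroup.subset_closure (Or.inl ⟨f1, π, hV, hO, f3⟩), f2 v hv, fun x hx => ?_⟩
  by_cases h : x ∈ st (bn M) π
  · rw [f2 x h, hkZ x hx]
  · exact f3 x h

theorem pf_EMS : T_EMS C c0 := by
  intro n O M hM π S F v hF hV hO k hk Z hZ hS hkZ
  have hb : ∀ x y, bn M (k x) (k y) = bn M x y := isoH_bn hk
  have hfix : ∀ a ∈ dl π, k a = a := fun a ha => hkZ a (hZ ha)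
  have hfixS : ∀ a ∈ S, k a = a := fun a ha => hkZ a (hS ha)
  have hmp : mp k π = π := by
    rw [mp_congr (g := id) hfix, mp_id]
  have hSk : S.map k = S := by
    conv_rhs => rw [← List.map_id S]
    exact List.map_congr_left hfixS
  have hmp' : mp k ((S, F, v, true) :: π) = (S, F, k v, true) :: π := by
    rw [mp_cons]
    simp only
    rw [hSk, hmp]
  have himg : st (bn M) ((S, F, k v, true) :: π) = k '' st (bn M) ((S, F, v, true) :: π) := by
    rw [← hmp']
    exact st_iso k hb _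
  have hV' : Vd (bn M) ((S, F, k v, true) :: π) := by
    rw [← hmp']
    exact (vd_iso k hb _).2 hV
  have hzfix : ∀ z ∈ S ++ zl π, k z = z := by
    intro z hz
    rcases List.mem_append.1 hz with h | h
    · exact hfixS z h
    · exact hfix z (zl_sub_dl π h)
  by_cases hkv : k v ∈ st (bn M) ((S, F, v, true) :: π)
  · -- the component is mapped to itself
    have heq : st (bn M) ((S, F, k v, true) :: π) = st (bn M) ((S, F, v, true) :: π) := by
      rw [st_true, st_true] at *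
      exact cl_eq hF (vd_cons.1 hV).2.2.1 (base_not_mem hV) hkv
    have hFI : FIh k M (S ++ zl π) (st (bn M) ((S, F, v, true) :: π)) M (S ++ zl π)
        (st (bn M) ((S, F, v, true) :: π)) :=
      isoH_fih hk hzfix (himg.symm.trans heq)
    obtain ⟨f, f1, f2, f3⟩ := pf_GLA (c0 := c0) n M hM _ hV k hFI
    refine ⟨f, Subgroup.subset_closure (Or.inl ⟨f1, _, hV, hO, f3⟩), f2 v base_mem,
      fun x hx => ?_⟩
    by_cases h : x ∈ st (bn M) ((S, F, v, true) :: π)
    · rw [f2 x h, hkZ x hx]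
    · exact f3 x h
  · have hFI : FIh k M (S ++ zl π) (st (bn M) ((S, F, v, true) :: π)) M (S ++ zl π)
        (st (bn M) ((S, F, k v, true) :: π)) :=
      isoH_fih hk hzfix himg.symm
    obtain ⟨f, f1, f2, f3, f4, f5⟩ := pf_GSW (c0 := c0) n M hM π S F v (k v) hF hV hV' hkv k hFI
    have hdis := comp_disj hF hV hV' hkv
    refine ⟨f, Subgroup.subset_closure (Or.inr ⟨f1, f2, π, S, F, v, k v, hF, hV, hV', hkv, hO,
      f4, f5⟩), f3 v base_mem, fun x hx => ?_⟩
    have hx1 : x ∉ st (bn M) ((S, F, v, true) :: π) := by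
      intro h
      refine hdis x h ?_
      rw [himg]
      exact ⟨x, h, hkZ x hx⟩
    have hx2 : x ∉ st (bn M) ((S, F, k v, true) :: π) := by
      intro h
      rw [himg] at h
      obtain ⟨w, hw, hwx⟩ := h
      exact hx1 (k.injective (hwx.trans (hkZ x hx).symm) ▸ hw)
    exact f5 x hx1 hx2

end Pool.Agent.CW
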