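import Pool.Agent.H41.CW.StmtD
import Pool.Agent.H71.VK.ASM

/-!
# MST, MBV, FIMP: Borel conditions on pieces
-/

set_option autoImplicit false

open Set Pool.Agent.TK Pool.Agent.H71.VK

namespace Pool.Agent.CW

open Pool.Agent.H94.VK (meas_rtg)

variable {C : Type} [MeasurableSpace C]

lemma meas_bn (x y : ℕ) : Measurable fun M : St (C × ℕ) => bn M x y :=
  measurable_snd.comp (measurable_value [x, y])

lemma meas_ee (x y : ℕ) (p : ℕ × ℕ) : MeasurableSet {M : St (C × ℕ) | ee (bn M) x y = p} := by
  have h : {M : St (C × ℕ) | ee (bn M) x y = p} =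
      {M : St (C × ℕ) | bn M x y = p.1} ∩ {M : St (C × ℕ) | bn M y x = p.2} := by
    ext M
    simp only [ee, mem_ofPred_eq, mem_inter_iff, Prod.ext_iff]
  rw [h]
  exact (meas_bn x y (measurableSet_singleton _)).inter (meas_bn y x (measurableSet_singleton _))

lemma meas_tp (L : List ℕ) (x : ℕ) (t : Ty) :
    MeasurableSet {M : St (C × ℕ) | tp (bn M) L x = t} := by
  induction L generalizing t with
  | nil => exact MeasurableSet.const (([] : Ty) = t)
  | cons a L ih =>
    cases t with
    | nil =>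
      have h : {M : St (C × ℕ) | tp (bn M) (a :: L) x = []} = ∅ := by
        ext M
        simp [tp]
      rw [h]
      exact MeasurableSet.empty
    | cons b t =>
      have h : {M : St (C × ℕ) | tp (bn M) (a :: L) x = b :: t} =
          {M : St (C × ℕ) | ee (bn M) x a = b} ∩ {M : St (C × ℕ) | tp (bn M) L x = t} := by
        ext M
        simp [tp]
      rw [h]
      exact (meas_ee x a b).inter (ih t)

lemma meas_ar (L : List ℕ) (F : Tab) (x y : ℕ) :
    MeasurableSet {M : St (C × ℕ) | Ar (bn M) L F x y} := by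
  have h : {M : St (C × ℕ) | Ar (bn M) L F x y} = ⋃ s : Ty, ⋃ t : Ty,
      ({M : St (C × ℕ) | tp (bn M) L x = s} ∩ ({M : St (C × ℕ) | tp (bn M) L y = t} ∩
        {M : St (C × ℕ) | ee (bn M) x y = lk F s t}ᶜ)) := by
    ext M
    simp only [Ar, mem_ofPred_eq, mem_iUnion, mem_inter_iff, mem_compl_iff]
    constructor
    · intro h
      exact ⟨_, _, rfl, rfl, h⟩
    · rintro ⟨s, t, rfl, rfl, h⟩
      exact h
  rw [h]
  exact MeasurableSet.iUnion fun s => MeasurableSet.iUnion fun t =>
    (meas_tp L x s).inter ((meas_tp L y t).inter (meas_ee x y _).compl)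

lemma meas_allmem {A : St (C × ℕ) → Set ℕ} (hA : ∀ x, MeasurableSet {M : St (C × ℕ) | x ∈ A M})
    (u : List ℕ) : MeasurableSet {M : St (C × ℕ) | ∀ z ∈ u, z ∈ A M} := by
  have h : {M : St (C × ℕ) | ∀ z ∈ u, z ∈ A M} = ⋂ z ∈ ms u, {M : St (C × ℕ) | z ∈ A M} := by
    ext M
    simp only [mem_ofPred_eq, mem_iInter, mem_ms]
  rw [h]
  exact MeasurableSet.biInter (to_countable _) fun z _ => hA z

theorem pf_MST : T_MST C := by
  intro π
  induction π with
  | nil => exact ⟨fun x => MeasurableSet.const _, MeasurableSet.const _⟩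
  | cons s π ih =>
    obtain ⟨S, F, v, β⟩ := s
    obtain ⟨ih1, ih2⟩ := ih
    have hcl : ∀ x, MeasurableSet {M : St (C × ℕ) | x ∈ cl (bn M) (st (bn M) π) (S ++ zl π) F v} := by
      intro x
      refine meas_rtg _ (fun a b => ?_) v x
      exact (meas_ar _ F a b).inter ((ih1 b).inter (MeasurableSet.const _))
    refine ⟨fun x => ?_, ?_⟩
    · cases β with
      | true => exact hcl x
      | false => exact (ih1 x).inter ((MeasurableSet.const _).inter (hcl x).compl)
    · exact ih2.inter ((meas_allmem ih1 S).inter ((ih1 v).inter (MeasurableSet.const _)))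

theorem pf_MBV [StandardBorelSpace C] : T_MBV C := by
  intro c0 n
  have h : {M : St (C × ℕ) | BV c0 n M} =
      (⋂ u, ⋂ v, {M : St (C × ℕ) | M.1 u v = decide (u ≠ v)}) ∩
      ({M : St (C × ℕ) | M.2 [] = (c0, 0)} ∩
      ((⋂ x, {M : St (C × ℕ) | (M.2 [x]).2 = 0}) ∩
      ((⋂ x, ⋂ y, ({M : St (C × ℕ) | (M.2 [x, y]).1 = c0} ∩
        {M : St (C × ℕ) | (M.2 [x, y]).2 < n})) ∩
      ⋂ l : List ℕ, ⋂ _ : 3 ≤ l.length, {M : St (C × ℕ) | M.2 l = (c0, 0)}))) := by
    ext M
    simp only [BV, mem_ofPred_eq, mem_inter_iff, mem_iInter]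
  rw [h]
  refine MeasurableSet.inter (MeasurableSet.iInter fun u => MeasurableSet.iInter fun v => ?_)
    (MeasurableSet.inter ?_ (MeasurableSet.inter (MeasurableSet.iInter fun x => ?_)
    (MeasurableSet.inter (MeasurableSet.iInter fun x => MeasurableSet.iInter fun y =>
      MeasurableSet.inter ?_ ?_)
    (MeasurableSet.iInter fun l => MeasurableSet.iInter fun _ => ?_))))
  · exact measurable_edge u v (measurableSet_singleton _)
  · exact measurable_value [] (measurableSet_singleton _)
  · exact (measurable_snd.comp (measurable_value [x])) (measurableSet_singleton _)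
  · exact (measurable_fst.comp (measurable_value [x, y])) (measurableSet_singleton _)
  · exact (measurable_snd.comp (measurable_value [x, y])) (MeasurableSet.of_discrete (s := {k : ℕ | k < n}))
  · exact measurable_value l (measurableSet_singleton _)

lemma meas_bfp [StandardBorelSpace C] (π : Pr) (N : St (C × ℕ)) (E : Set ℕ) (r : Rk)
    (p : List (ℕ × ℕ)) : MeasurableSet {M : St (C × ℕ) | bf M N (st (bn M) π) E r p} := by
  induction r generalizing p with
  | zero => exact measurableSet_PI N p
  | sup f ih =>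
    have h1 : {M : St (C × ℕ) | bf M N (st (bn M) π) E (Rk.sup f) p} =
        ⋂ n, ({M : St (C × ℕ) | bf M N (st (bn M) π) E (f n) p} ∩
          ((⋂ a, ({M : St (C × ℕ) | a ∈ st (bn M) π}ᶜ ∪
            ⋃ b, ⋃ _ : b ∈ E, {M : St (C × ℕ) | bf M N (st (bn M) π) E (f n) ((a, b) :: p)})) ∩
          ⋂ b, ⋂ _ : b ∈ E, ⋃ a, ({M : St (C × ℕ) | a ∈ st (bn M) π} ∩
            {M : St (C × ℕ) | bf M N (st (bn M) π) E (f n) ((a, b) :: p)}))) := by
      ext M
      simp only [bf, mem_ofPred_eq, mem_inter_iff, mem_iInter, mem_union, mem_compl_iff,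
        mem_iUnion, exists_prop, imp_iff_not_or]
    rw [h1]
    refine MeasurableSet.iInter fun n => (ih n p).inter (MeasurableSet.inter ?_ ?_)
    · refine MeasurableSet.iInter fun a => ((pf_MST π).1 a).compl.union ?_
      exact MeasurableSet.iUnion fun b => MeasurableSet.iUnion fun _ => ih n _
    · refine MeasurableSet.iInter fun b => MeasurableSet.iInter fun _ =>
        MeasurableSet.iUnion fun a => ((pf_MST π).1 a).inter (ih n _)

theorem pf_FIMP [StandardBorelSpace C] : T_FIMP C := by
  intro a π N b E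
  obtain ⟨r, hr⟩ := pf_SCO pf_SC1 pf_SC2 N b E
  have h1 : {M : St (C × ℕ) | FI M a (st (bn M) π) N b E} =
      {_M : St (C × ℕ) | a.length = b.length} ∩
        {M : St (C × ℕ) | bf M N (st (bn M) π) E r (a.zip b)} := by
    ext M
    constructor
    · intro h
      exact h.fb r
    · intro h
      have h2 : FB r M a (st (bn M) π) N b E := h
      exact (hr M a _ h2.symm).symm
  rw [h1]
  exact (MeasurableSet.const _).inter (meas_bfp π N E r _)

end Pool.Agent.CW
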