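import Pool.Agent.H76.CW.BasicB
import Pool.Agent.H71.VK.FIM
import Pool.Agent.H94.VK.MVM

/-!
# Group D: the group generated by local automorphisms and swaps, exact statements
-/

set_option autoImplicit false

open Set Pool.Agent.TK Pool.Agent.H71.VK

namespace Pool.Agent.CW

open Pool.Agent.H41.ST (RelN FlatN)

/-- MST: membership in pieces and validity of presentations are Borel. -/
def T_MST (C : Type) [MeasurableSpace C] : Prop :=
  ∀ π : Pr, (∀ x, MeasurableSet {M : St (C × ℕ) | x ∈ st (bn M) π}) ∧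
    MeasurableSet {M : St (C × ℕ) | Vd (bn M) π}

/-- MBV: the class of binary structures is Borel. -/
def T_MBV (C : Type) [MeasurableSpace C] [StandardBorelSpace C] : Prop :=
  ∀ (c0 : C) (n : ℕ), MeasurableSet {M : St (C × ℕ) | BV c0 n M}

/-- FIMP: isomorphism of a piece with a fixed triple is Borel. -/
def T_FIMP (C : Type) [MeasurableSpace C] [StandardBorelSpace C] : Prop :=
  ∀ (a : List ℕ) (π : Pr) (N : St (C × ℕ)) (b : List ℕ) (E : Set ℕ),
    MeasurableSet {M : St (C × ℕ) | FI M a (st (bn M) π) N b E}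

/-- GLA: gluing of an automorphism of a piece. -/
def T_GLA (C : Type) (c0 : C) : Prop :=
  ∀ (n : ℕ) (M : St (C × ℕ)), BV c0 n M → ∀ π : Pr, Vd (bn M) π → ∀ g : ℕ → ℕ,
    FIh g M (zl π) (st (bn M) π) M (zl π) (st (bn M) π) →
    ∃ f : Equiv.Perm ℕ, IsoH f M M ∧ (∀ a ∈ st (bn M) π, f a = g a) ∧
      ∀ x, x ∉ st (bn M) π → f x = x

/-- GSW: the swap of two components. -/
def T_GSW (C : Type) (c0 : C) : Prop :=
  ∀ (n : ℕ) (M : St (C × ℕ)), BV c0 n M → ∀ (π : Pr) (S : List ℕ) (F : Tab) (v v' : ℕ), Sy F →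
    Vd (bn M) ((S, F, v, true) :: π) → Vd (bn M) ((S, F, v', true) :: π) →
    v' ∉ st (bn M) ((S, F, v, true) :: π) → ∀ g : ℕ → ℕ,
    FIh g M (S ++ zl π) (st (bn M) ((S, F, v, true) :: π)) M (S ++ zl π)
      (st (bn M) ((S, F, v', true) :: π)) →
    ∃ f : Equiv.Perm ℕ, IsoH f M M ∧ (∀ x, f (f x) = x) ∧
      (∀ a ∈ st (bn M) ((S, F, v, true) :: π), f a = g a) ∧
      f '' st (bn M) ((S, F, v, true) :: π) = st (bn M) ((S, F, v', true) :: π) ∧
      ∀ x, x ∉ st (bn M) ((S, F, v, true) :: π) → x ∉ st (bn M) ((S, F, v', true) :: π) → f x = x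

/-- MVB: the moves by local automorphisms are Borel. -/
def T_MVB (C : Type) (c0 : C) [MeasurableSpace C] [StandardBorelSpace C] : Prop :=
  ∀ (n : ℕ) (O : Set (Tr C)), O.Countable → ∀ l m : List ℕ,
    MeasurableSet {M : St (C × ℕ) | BV c0 n M ∧ MvA O M l m}

/-- MVC: the moves by swaps are Borel. -/
def T_MVC (C : Type) (c0 : C) [MeasurableSpace C] [StandardBorelSpace C] : Prop :=
  ∀ (n : ℕ) (O : Set (Tr C)), O.Countable → ∀ l m : List ℕ,
    MeasurableSet {M : St (C × ℕ) | BV c0 n M ∧ MvS O M l m}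

/-- RLG: the orbit relation is generated by the moves, and it is Borel. -/
def T_RLG (C : Type) (c0 : C) [MeasurableSpace C] [StandardBorelSpace C] : Prop :=
  (∀ (O : Set (Tr C)) (M : St (C × ℕ)) (l m : List ℕ), RelN (NG O M) l m ↔
    Relation.ReflTransGen (fun l m => MvA O M l m ∨ MvS O M l m) l m) ∧
  ∀ (n : ℕ) (O : Set (Tr C)), O.Countable → ∀ l m : List ℕ,
    MeasurableSet {M : St (C × ℕ) | BV c0 n M ∧ RelN (NG O M) l m}

/-- RTG: transport of the orbit relation. -/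
def T_RTG (C : Type) : Prop :=
  ∀ (O : Set (Tr C)) (M N : St (C × ℕ)) (h : Equiv.Perm ℕ), IsoH h M N → ∀ l m : List ℕ,
    RelN (NG O M) l m → RelN (NG O N) (l.map h) (m.map h)

/-- EMA: an automorphism which fixes the parameters of a piece with type in `O` agrees at a point
of the piece with an element of the group. -/
def T_EMA (C : Type) (c0 : C) : Prop :=
  ∀ (n : ℕ) (O : Set (Tr C)) (M : St (C × ℕ)), BV c0 n M → ∀ π : Pr, Vd (bn M) π →
    InO O M (zl π) (st (bn M) π) → ∀ (k : Equiv.Perm ℕ), IsoH k M M → ∀ Z : List ℕ, dl π ⊆ Z →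
    (∀ x ∈ Z, k x = x) → ∀ v ∈ st (bn M) π,
      ∃ m ∈ NG O M, m v = k v ∧ ∀ x ∈ Z, m x = x

/-- EMS: the same for a component with type in `O`. -/
def T_EMS (C : Type) (c0 : C) : Prop :=
  ∀ (n : ℕ) (O : Set (Tr C)) (M : St (C × ℕ)), BV c0 n M → ∀ (π : Pr) (S : List ℕ) (F : Tab)
    (v : ℕ), Sy F → Vd (bn M) ((S, F, v, true) :: π) →
    InO O M (S ++ zl π) (st (bn M) ((S, F, v, true) :: π)) →
    ∀ (k : Equiv.Perm ℕ), IsoH k M M → ∀ Z : List ℕ, dl π ⊆ Z → S ⊆ Z →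
    (∀ x ∈ Z, k x = x) → ∃ m ∈ NG O M, m v = k v ∧ ∀ x ∈ Z, m x = x

/-- GNG: the general theorem for the group `NG`. -/
def T_GNG (C : Type) (c0 : C) [MeasurableSpace C] [StandardBorelSpace C] : Prop :=
  ∀ (n : ℕ) (O : Set (Tr C)), O.Countable → ∀ X : Set (St (C × ℕ)), MeasurableSet X →
    (∀ M ∈ X, BV c0 n M) → ∀ P : St (C × ℕ) → Prop,
    (∀ M ∈ X, ∀ (ν : List ℕ → ℕ) (φ : Y (C × ℕ)), FlatN (NG O M) M ν φ → PDiv (AutY φ) → P M) →
    Perf X ∨ (∃ T' : Set (St (C × ℕ)), T'.Countable ∧ ∀ M ∈ X, ∃ N ∈ T', Iso M N) ∨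
      ¬ ∃ T' : Set (St (C × ℕ)), T'.Countable ∧ ∀ M ∈ X, P M → ∃ N ∈ T', Iso M N

/-- SYG: the interface of the group. -/
def T_SYG (C : Type) (c0 : C) : Prop :=
  ∀ (n : ℕ) (O : Set (Tr C)) (M : St (C × ℕ)), BV c0 n M →
    (∀ (π : Pr) (S : List ℕ) (F : Tab), Vd (bn M) π → (∀ a ∈ S, a ∈ st (bn M) π) → Sy F →
      {D : Set ℕ | ∃ v ∈ st (bn M) π, v ∉ S ∧ ¬ SmO O M ((S, F, v, true) :: π) ∧
        D = st (bn M) ((S, F, v, true) :: π)}.Finite) →
    ∀ (ν : List ℕ → ℕ) (φ : Y (C × ℕ)), FlatN (NG O M) M ν φ → PDiv (AutY φ) →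
      Nonempty (GS n (bn M) (SmO O M))

/-- GRP: a member with a group. -/
def T_GRP (C : Type) (c0 : C) [MeasurableSpace C] [StandardBorelSpace C] : Prop :=
  ∀ (n : ℕ) (O : Set (Tr C)), O.Countable → ∀ X : Set (St (C × ℕ)), MeasurableSet X →
    (∀ M ∈ X, BV c0 n M) →
    (∀ M ∈ X, ∀ (π : Pr) (S : List ℕ) (F : Tab), Vd (bn M) π → (∀ a ∈ S, a ∈ st (bn M) π) →
      Sy F → {D : Set ℕ | ∃ v ∈ st (bn M) π, v ∉ S ∧ ¬ SmO O M ((S, F, v, true) :: π) ∧
        D = st (bn M) ((S, F, v, true) :: π)}.Finite) →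
    ¬ Perf X → (¬ ∃ T' : Set (St (C × ℕ)), T'.Countable ∧ ∀ M ∈ X, ∃ N ∈ T', Iso M N) →
    ∃ M ∈ X, Nonempty (GS n (bn M) (SmO O M))

/-- GRP from GNG and SYG -/
theorem grp_of {C : Type} {c0 : C} [MeasurableSpace C] [StandardBorelSpace C]
    (h1 : T_GNG C c0) (h2 : T_SYG C c0) : T_GRP C c0 := by
  intro n O hO X hX hV hfin hP hT
  rcases h1 n O hO X hX hV (fun M => Nonempty (GS n (bn M) (SmO O M)))
    (fun M hM ν φ hF hd => h2 n O M (hV M hM) (hfin M hM) ν φ hF hd) with h | h | h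
  · exact absurd h hP
  · exact absurd h hT
  · by_contra hcon
    push Not at hcon
    exact h ⟨∅, countable_empty, fun M hM hG => absurd hG (not_nonempty_iff.2 (hcon M hM))⟩

end Pool.Agent.CW
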