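import Pool.Agent.H71.CW.Tk

/-! Infinite inseparable sets give subdivisions of the infinite complete graph. -/

set_option autoImplicit false

open Set

namespace Pool.Agent.CW

private theorem tk_step (G : SimpleGraph ℕ) (B : Set ℕ) (hI : Insep G B) (F : Finset ℕ) (b : ℕ)
    (hb : b ∈ B) (hbF : b ∉ F) (A : Finset ℕ) :
    A ⊆ F → (∀ a ∈ A, a ∈ B) →
    ∃ Q : ∀ a, a ∈ A → G.Walk a b, (∀ a h, (Q a h).IsPath) ∧
      (∀ a h, ∀ v ∈ (Q a h).support, v ∈ F → v = a) ∧
      (∀ a h a' h', a ≠ a' → ∀ v ∈ (Q a h).support, v ∈ (Q a' h').support → v = b) := by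
  classical
  induction A using Finset.induction_on with
  | empty =>
    intro _ _
    exact ⟨fun a h => absurd h (by simp), fun a h => absurd h (by simp),
      fun a h => absurd h (by simp), fun a h => absurd h (by simp)⟩
  | insert a₀ A ha₀ ih =>
    intro hF hB
    obtain ⟨Q, h1, h2, h3⟩ := ih (fun x hx => hF (Finset.mem_insert_of_mem hx))
      (fun x hx => hB x (Finset.mem_insert_of_mem hx))
    have ha₀F : a₀ ∈ F := hF (Finset.mem_insert_self _ _)
    have hne : a₀ ≠ b := fun h => hbF (h ▸ ha₀F)
    let S : Finset ℕ := (F.erase a₀) ∪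
      ((A.attach.biUnion fun a => (Q a.1 a.2).support.toFinset).erase b)
    have haS : a₀ ∉ S := by
      simp only [S, Finset.mem_union, Finset.mem_erase, Finset.mem_biUnion, Finset.mem_attach,
        true_and, List.mem_toFinset, not_or, not_and, not_exists]
      refine ⟨fun h => absurd rfl h, fun _ a ha => ?_⟩
      have := h2 a.1 a.2 a₀ ha ha₀F
      exact ha₀ (this ▸ a.2)
    have hbS : b ∉ S := by
      simp only [S, Finset.mem_union, Finset.mem_erase, ne_eq, not_true_eq_false, false_and,
        or_false, not_and]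
      exact fun _ => hbF
    obtain ⟨w, hw⟩ := hI a₀ (hB _ (Finset.mem_insert_self _ _)) b hb hne S haS hbS
    have hwS : ∀ v ∈ w.bypass.support, v ∉ S := fun v hv => hw v (w.support_bypass_subset hv)
    have hwF : ∀ v ∈ w.bypass.support, v ∈ F → v = a₀ := by
      intro v hv hvF
      by_contra hc
      exact hwS v hv (Finset.mem_union_left _ (Finset.mem_erase.2 ⟨hc, hvF⟩))
    have hwQ : ∀ v ∈ w.bypass.support, ∀ a h, v ∈ (Q a h).support → v = b := by
      intro v hv a h hvQ
      by_contra hc
      refine hwS v hv (Finset.mem_union_right _ (Finset.mem_erase.2 ⟨hc, ?_⟩))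
      rw [Finset.mem_biUnion]
      exact ⟨⟨a, h⟩, Finset.mem_attach _ _, List.mem_toFinset.2 hvQ⟩
    refine ⟨fun a h => if e : a = a₀ then w.bypass.copy e.symm rfl
      else Q a (Finset.mem_of_mem_insert_of_ne h e), ?_, ?_, ?_⟩
    · intro a h
      by_cases e : a = a₀
      · subst e
        simpa using w.bypass_isPath
      · simpa [e] using h1 a _
    · intro a h v hv hvF
      by_cases e : a = a₀
      · subst e
        simp only [dite_true, SimpleGraph.Walk.support_copy] at hv
        exact hwF v hv hvF
      · simp only [e, dite_false] at hv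
        exact h2 a _ v hv hvF
    · intro a h a' h' hne v hv hv'
      by_cases e : a = a₀
      · by_cases e' : a' = a₀
        · exact absurd (e.trans e'.symm) hne
        · simp only [e, dite_true, SimpleGraph.Walk.support_copy] at hv
          simp only [e', dite_false] at hv'
          exact hwQ v hv a' _ hv'
      · by_cases e' : a' = a₀
        · simp only [e', dite_true, SimpleGraph.Walk.support_copy] at hv'
          simp only [e, dite_false] at hv
          exact hwQ v hv' a _ hv
        · simp only [e, dite_false] at hv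
          simp only [e', dite_false] at hv'
          exact h3 a _ a' _ hne v hv hv'

private structure TkSt (B : Set ℕ) where
  F : Finset ℕ
  A : Finset ℕ
  hAF : A ⊆ F
  hAB : ∀ a ∈ A, a ∈ B

theorem pf_TKC : T_TKC := by
  classical
  intro G B hBi hI
  have hstep : ∀ s : TkSt B, ∃ b : ℕ, b ∈ B ∧ b ∉ s.F ∧
      ∃ Q : ∀ a, a ∈ s.A → G.Walk a b, (∀ a h, (Q a h).IsPath) ∧
        (∀ a h, ∀ v ∈ (Q a h).support, v ∈ s.F → v = a) ∧
        (∀ a h a' h', a ≠ a' → ∀ v ∈ (Q a h).support, v ∈ (Q a' h').support → v = b) := by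
    intro s
    obtain ⟨b, hbB, hbF⟩ := hBi.exists_notMem_finset s.F
    exact ⟨b, hbB, hbF, tk_step G B hI s.F b hbB hbF s.A s.hAF s.hAB⟩
  choose nb hnbB hnbF Q h1 h2 h3 using hstep
  let next : TkSt B → TkSt B := fun s =>
    { F := insert (nb s) (s.F ∪ s.A.attach.biUnion fun a => (Q s a.1 a.2).support.toFinset)
      A := insert (nb s) s.A
      hAF := by
        intro x hx
        rcases Finset.mem_insert.1 hx with h | h
        · rw [h]
          exact Finset.mem_insert_self _ _
        · exact Finset.mem_insert_of_mem (Finset.mem_union_left _ (s.hAF h))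
      hAB := by
        intro x hx
        rcases Finset.mem_insert.1 hx with h | h
        · rw [h]
          exact hnbB s
        · exact s.hAB x h }
  let s₀ : TkSt B := ⟨∅, ∅, by simp, by simp⟩
  let st : ℕ → TkSt B := fun n => Nat.rec s₀ (fun _ s => next s) n
  have hst : ∀ n, st (n + 1) = next (st n) := fun n => rfl
  have hFmono : ∀ i j, i ≤ j → (st i).F ⊆ (st j).F := by
    intro i j hij
    induction hij with
    | refl => exact fun x hx => hx
    | step h ih =>
      intro x hx
      rw [hst]
      exact Finset.mem_insert_of_mem (Finset.mem_union_left _ (ih hx))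
  have hAmono : ∀ i j, i ≤ j → (st i).A ⊆ (st j).A := by
    intro i j hij
    induction hij with
    | refl => exact fun x hx => hx
    | step h ih =>
      intro x hx
      rw [hst]
      exact Finset.mem_insert_of_mem (ih hx)
  let b : ℕ → ℕ := fun n => nb (st n)
  have hbA : ∀ i j, i < j → b i ∈ (st j).A := by
    intro i j hij
    refine hAmono (i + 1) j hij ?_
    rw [hst]
    exact Finset.mem_insert_self _ _
  have hbF : ∀ i j, i < j → b i ∈ (st j).F := fun i j hij => (st j).hAF (hbA i j hij)
  have hnF : ∀ i j, i ≤ j → b j ∉ (st i).F := fun i j hij h => hnbF (st j) (hFmono i j hij h)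
  have hinj : Function.Injective b := by
    intro i j hij
    rcases lt_trichotomy i j with h | h | h
    · exact absurd (hij ▸ hbF i j h) (hnF j j le_rfl)
    · exact h
    · exact absurd (hij ▸ hbF j i h) (hnF i i le_rfl)
  have hQF : ∀ i j (h : i < j), ∀ v ∈ (Q (st j) (b i) (hbA i j h)).support,
      v ∈ (st (j + 1)).F := by
    intro i j h v hv
    rw [hst]
    refine Finset.mem_insert_of_mem (Finset.mem_union_right _ ?_)
    rw [Finset.mem_biUnion]
    exact ⟨⟨b i, hbA i j h⟩, Finset.mem_attach _ _, List.mem_toFinset.2 hv⟩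
  refine ⟨b, fun i j => if h : i < j then Q (st j) (b i) (hbA i j h)
    else if h' : j < i then (Q (st i) (b j) (hbA j i h')).reverse
    else (SimpleGraph.Walk.nil : G.Walk (b i) (b i)).copy rfl
      (by rw [le_antisymm (not_lt.1 h') (not_lt.1 h)]), hinj, ?_, ?_⟩
  · intro i j hij
    simp only [hij, dite_true]
    refine ⟨h1 _ _ _, fun k hk => ?_⟩
    rcases lt_trichotomy k j with h | h | h
    · exact Or.inl (hinj (h2 _ _ _ _ hk (hbF k j h)))
    · exact Or.inr h
    · exact absurd (hQF i j hij _ hk) (hnF (j + 1) k h)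
  · intro i j k l hij hkl hne v hv hv'
    simp only [hij, dite_true] at hv
    simp only [hkl, dite_true] at hv'
    rcases lt_trichotomy j l with h | h | h
    · exact ⟨k, (h2 _ _ _ _ hv' (hFmono (j + 1) l h (hQF i j hij v hv))).symm⟩
    · subst h
      have hik : b i ≠ b k := fun e => hne (by rw [hinj e])
      exact ⟨j, (h3 _ _ _ _ _ hik v hv hv').symm⟩
    · exact ⟨i, (h2 _ _ _ _ hv (hFmono (l + 1) j h (hQF k l hkl v hv'))).symm⟩

end Pool.Agent.CW
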